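import Pool.Agent.W5h86.LX.Fin3
import Pool.Agent.W5h86.LX.Inv2

set_option autoImplicit false

/-!
# The classes are combinations of products of divisor classes
-/

open Module Function

noncomputable section

namespace Pool.Agent.W5h86.LX

open Pool.Agent.Y102 Pool.Agent.W516.DR Pool.Agent.W516.KC Pool.Agent.H204R3.SP Pool.Agent.W5h86.LY
open Pool.Agent.H204R3.GP

variable {g : ℕ} {A : AbVar g} {P : Module.End ℚ A.H1} {M : (Fin g → ℂ) →ₗ[ℂ] (Fin g → ℂ)}

/-- the annihilated classes are combinations of products -/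
theorem lef_of_kills (A : AbVar g) {P : Module.End ℚ A.H1} (hP : P ∈ A.EA) (hPs : IsSkew A.om P)
    (hPi : Function.Injective P) {m : ℕ} {φ : MultilinearMap ℚ (fun _ : Fin m × Fin 2 => A.H1) ℚ}
    (h : ∀ Z : Module.End ℚ A.H1, IsSkew A.om Z → Z * P = P * Z → Kills Z φ) :
    φ ∈ Submodule.span ℚ (AbVar.LefProd A A.EA m) := by
  have h1 := prod_of_kills A.om A.om_anti (fun u hu => A.om_nondeg hu) P hPs hPi
    (fun p => A.aeval_reduced hP hPs p) φ h
  refine Submodule.span_mono ?_ h1
  rintro ψ ⟨σ, i, hψ⟩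
  refine ⟨σ, fun l => P ^ i l, fun l => ?_, hψ⟩
  have h2 : ∀ n : ℕ, P ^ n ∈ A.EA := by
    intro n
    induction n with
    | zero => rw [pow_zero]; exact A.EA_one
    | succ n ih => rw [pow_succ]; exact A.EA_mul ih hP
  exact h2 _

/-- the endomorphism is not zero if its action on the tangent space has a nonzero eigenvalue -/
lemma ne_zero_of_eig (hM : ∀ w, M (A.per w) = A.per (P w)) {s : ℂ} (hs : s ≠ 0)
    (h1 : LinearMap.ker (M - s • LinearMap.id) ≠ ⊥) : P ≠ 0 := by
  rintro rfl
  have h2 : M.restrictScalars ℝ = 0 := A.ext_per fun w => by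
    change M (A.per w) = 0
    rw [hM, LinearMap.zero_apply, map_zero]
  obtain ⟨v, hv, hv0⟩ := Submodule.exists_mem_ne_zero_of_ne_bot h1
  rw [LinearMap.mem_ker, LinearMap.sub_apply, LinearMap.smul_apply, LinearMap.id_apply] at hv
  have h3 : M v = 0 := LinearMap.congr_fun h2 v
  rw [h3, zero_sub, neg_eq_zero] at hv
  rcases smul_eq_zero.1 hv with h | h
  · exact hs h
  · exact hv0 h

end Pool.Agent.W5h86.LX
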