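import Pool.Agent.W5h86.LX.Br7
import Pool.Agent.Y102.AV12
import Pool.Agent.Y102.AV14

set_option autoImplicit false

/-!
# Rank two: the centre
-/

open Module Function Polynomial TensorProduct

noncomputable section

namespace Pool.Agent.W5h86.LX

open Pool.Agent.Y102 Pool.Agent.W516.DR Pool.Agent.W516.KC Pool.Agent.H204R3.SP Pool.Agent.W5h86.LY

variable {g : ℕ} (A : AbVar g)

/-- the torus has no relations -/
def TR (P : Module.End ℚ A.H1) : Prop :=
  ∀ f : ℚ[X], f.comp (-X) = -f → aeval P f ≠ 0 → ∀ n : ℂ →₀ ℤ,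
    (∀ z ∈ n.support, aeval z (minpoly ℚ P) = 0) →
    n.sum (fun z k => (k : ℂ) * aeval z f) = 0 → ∀ z, n z = n (-z)

/-- The formulation without multiplicities. -/
theorem TR.odd {P : Module.End ℚ A.H1} (h : TR A P) {f : ℚ[X]} (hf : f.comp (-X) = -f)
    (hf0 : aeval P f ≠ 0) {κ : Type} [Fintype κ] (x : κ → ℂ)
    (hx : ∀ k, aeval (x k) (minpoly ℚ P) = 0) (hsum : ∑ k, aeval (x k) f = 0)
    (h' : ℂ → ℂ) (hodd : ∀ z, h' (-z) = -h' z) : ∑ k, h' (x k) = 0 := by
  classical
  let n : ℂ →₀ ℤ := ∑ k, Finsupp.single (x k) 1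
  have hn : ∀ F : ℂ → ℂ, n.sum (fun z k => (k : ℂ) * F z) = ∑ k, F (x k) := by
    intro F
    simp only [n]
    rw [← Finsupp.sum_finsetSum_index (fun z => by rw [Int.cast_zero, zero_mul])
      (fun z a b => by rw [Int.cast_add, add_mul])]
    refine Finset.sum_congr rfl fun k _ => ?_
    rw [Finsupp.sum_single_index (by rw [Int.cast_zero, zero_mul]), Int.cast_one, one_mul]
  have hsupp : ∀ z ∈ n.support, aeval z (minpoly ℚ P) = 0 := by
    intro z hz
    have h1 : n.support ⊆ Finset.univ.biUnion fun k => (Finsupp.single (x k) (1 : ℤ)).support :=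
      Finsupp.support_finsetSum
    obtain ⟨k, -, hk⟩ := Finset.mem_biUnion.1 (h1 hz)
    have h2 := Finsupp.support_single_subset hk
    rw [Finset.mem_singleton] at h2
    rw [h2]
    exact hx k
  have h1 := h f hf hf0 n hsupp (by rw [hn]; exact hsum)
  have h2 : n.sum (fun z k => (k : ℂ) * h' z) = -n.sum (fun z k => (k : ℂ) * h' z) := by
    rw [Finsupp.sum, ← Finset.sum_neg_distrib]
    refine Finset.sum_bij (fun z _ => -z) (fun z hz => ?_) (fun a _ b _ hab => neg_injective hab)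
      (fun z hz => ⟨-z, ?_, neg_neg z⟩) fun z _ => ?_
    · rw [Finsupp.mem_support_iff] at hz ⊢
      rwa [← h1]
    · rw [Finsupp.mem_support_iff] at hz ⊢
      rwa [← h1]
    · rw [hodd, ← h1 z]
      ring
  rw [hn] at h2
  have h3 : (2 : ℂ) * ∑ k, h' (x k) = 0 := by linear_combination h2
  exact (mul_eq_zero.1 h3).resolve_left two_ne_zero

/-- a skew-symmetric polynomial in `P` is an odd polynomial in `P` -/
lemma exists_odd {P : Module.End ℚ A.H1} (hPs : IsSkew A.om P) {Q : Module.End ℚ A.H1}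
    (hQ : Q ∈ Algebra.adjoin ℚ {P}) (hQs : IsSkew A.om Q) :
    ∃ f : ℚ[X], f.comp (-X) = -f ∧ aeval P f = Q := by
  rw [Algebra.adjoin_singleton_eq_range_aeval] at hQ
  obtain ⟨p, rfl⟩ := hQ
  have h1 : aeval (-P) p = -aeval P p := by
    refine LinearMap.ext fun v => ?_
    rw [← sub_eq_zero]
    apply A.om_nondeg
    intro u
    rw [A.om_anti, map_sub, ← A.aeval_adj hPs, LinearMap.neg_apply, map_neg]
    have h2 := hQs u v
    change A.om (aeval P p u) v + A.om u (aeval P p v) = 0 at h2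
    linear_combination -h2
  have h2 : aeval P (p.comp (-X)) = aeval (-P) p := by
    rw [aeval_comp, map_neg, aeval_X]
  refine ⟨(1 / 2 : ℚ) • (p - p.comp (-X)), ?_, ?_⟩
  · rw [smul_comp, sub_comp, Polynomial.comp_assoc, neg_comp, X_comp, neg_neg, comp_X, ← smul_neg,
      neg_sub]
  · rw [map_smul, map_sub, h2, h1]
    change (1 / 2 : ℚ) • (aeval P p - -aeval P p) = aeval P p
    rw [sub_neg_eq_add, ← two_smul ℚ, smul_smul]
    norm_num

/-- **The centre.** If the Lie algebra contains an endomorphism then all skew-symmetric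
endomorphisms annihilate the classes. -/
theorem kills_EA {P : Module.End ℚ A.H1} (hP : P ∈ A.EA) (hPs : IsSkew A.om P)
    (hEA : ∀ Q ∈ A.EA, Q ∈ Algebra.adjoin ℚ {P}) (hTR : TR A P) {X0 : Module.End ℚ A.H1}
    (hX0 : X0 ∈ A.LA) (hX0E : X0 ∈ A.EA) (hX0n : X0 ≠ 0) {Z : Module.End ℚ A.H1} (hZ : Z ∈ A.EA)
    (hZs : IsSkew A.om Z) {m : ℕ} {φ : MultilinearMap ℚ (fun _ : Fin m × Fin 2 => A.H1) ℚ}
    (hφ : IsDeRhamBettiForm QBar A.dR tau m φ) : Kills Z φ := by
  classical
  obtain ⟨f, hf, hfX⟩ := exists_odd A hPs (hEA _ hX0E) (A.LA_skew hX0)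
  obtain ⟨f', hf', hfZ⟩ := exists_odd A hPs (hEA _ hZ) hZs
  have hcomm : ∀ Q ∈ A.EA, ∀ Q' ∈ A.EA, Q * Q' = Q' * Q := by
    intro Q hQ Q' hQ'
    have h1 := hEA Q hQ
    have h2 := hEA Q' hQ'
    rw [Algebra.adjoin_singleton_eq_range_aeval] at h1 h2
    obtain ⟨p, rfl⟩ := h1
    obtain ⟨p', rfl⟩ := h2
    change aeval P p * aeval P p' = aeval P p' * aeval P p
    exact ((map_mul (aeval P) p p').symm.trans (congrArg (aeval P) (mul_comm p p'))).trans
      (map_mul (aeval P) p' p)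
  have hPZ : P ∈ A.ZA := ⟨hP, hPs, fun Q hQ => hcomm P hP Q hQ⟩
  obtain ⟨n, b, χ, hb⟩ := A.exists_basis
  have hbf : ∀ (p : ℚ[X]) i, (aeval P p).baseChange ℂ (b i) =
      aeval (χ i ⟨P, hPZ⟩) p • b i := by
    intro p i
    rw [← aeval_baseChange]
    exact AbVar.aeval_eigen (hb i ⟨P, hPZ⟩) p
  let β := Module.finBasis ℚ A.H1
  have hcmp : ∀ (lam : ℂ →ₗ[ℚ] ℚ) (Y : Module.End ℚ A.H1),
      Pool.Agent.W516.DR.cmpE lam (Y.baseChange ℂ) = lam 1 • Y := by
    intro lam Y
    refine LinearMap.ext fun w => ?_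
    rw [Pool.Agent.W516.DR.cmpE_apply, LinearMap.baseChange_tmul, Pool.Agent.W516.DR.cmp_tmul,
      LinearMap.smul_apply]
  have h1 : Kills (X0.baseChange ℂ) (bcm (Ω := ℂ) β φ) :=
    (kills_bcm_iff β φ _).2 fun lam => by
      rw [hcmp]
      exact (A.LA.smul_mem _ hX0) m φ hφ
  have h2 : Kills (Z.baseChange ℂ) (bcm (Ω := ℂ) β φ) := by
    refine kills_of_basis b _ _ fun I => ?_
    have h3 : ∀ p : ℚ[X], ∑ k, bcm (Ω := ℂ) β φ (update (fun l => b (I l)) k
        ((aeval P p).baseChange ℂ (b (I k)))) =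
        (∑ k, aeval (χ (I k) ⟨P, hPZ⟩) p) * bcm (Ω := ℂ) β φ (fun l => b (I l)) := by
      intro p
      rw [Finset.sum_mul]
      refine Finset.sum_congr rfl fun k _ => ?_
      rw [hbf, MultilinearMap.map_update_smul, smul_eq_mul]
      congr 2
      exact update_eq_self k (fun l => b (I l))
    rw [← hfZ, h3 f']
    by_cases h0 : bcm (Ω := ℂ) β φ (fun l => b (I l)) = 0
    · rw [h0, mul_zero]
    · have h4 := h1 (fun l => b (I l))
      rw [← hfX, h3 f] at h4
      have h5 := (mul_eq_zero.1 h4).resolve_right h0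
      have h6 := hTR.odd A hf (by rw [hfX]; exact hX0n) (fun k => χ (I k) ⟨P, hPZ⟩) (fun k => by
        have h7 := hbf (minpoly ℚ P) (I k)
        rw [minpoly.aeval, LinearMap.baseChange_zero, LinearMap.zero_apply] at h7
        exact (smul_eq_zero.1 h7.symm).resolve_right (b.ne_zero _)) h5 (fun z => aeval z f')
        (fun z => by
          have h7 := congrArg (aeval z) hf'
          rw [aeval_comp, map_neg, aeval_X, map_neg] at h7
          exact h7)
      rw [h6, zero_mul]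
  obtain ⟨lam, hlam⟩ : ∃ lam : ℂ →ₗ[ℚ] ℚ, lam 1 = 1 := by
    obtain ⟨G, hG⟩ := exists_lin (F := ℚ) (v := fun _ : Unit => (1 : ℂ)) (by
      rw [linearIndependent_unique_iff]
      exact one_ne_zero) (fun _ => (1 : ℚ))
    exact ⟨G, hG ()⟩
  have h3 := (kills_bcm_iff β φ _).1 h2 lam
  rwa [hcmp, hlam, one_smul] at h3

/-- the real extension -/
lemma KR_of_kills {C : Submodule ℚ (Module.End ℚ A.H1)} {κ : Type} [Fintype κ] [DecidableEq κ]
    {φ : MultilinearMap ℚ (fun _ : κ => A.H1) ℚ} (hC : ∀ X ∈ C, Kills X φ)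
    {Y : (Fin g → ℂ) →ₗ[ℝ] (Fin g → ℂ)} (hY : Y ∈ A.CR C) : KR Y (A.Phi φ) :=
  fun u => A.Phi_kills φ Y (fun f v => hC _ (A.CR_cmp hY f) v) u

/-- the operators of the place which are given by the centre -/
lemma KR_YY {κ : Type} [Fintype κ] [DecidableEq κ]
    {φ : MultilinearMap ℚ (fun _ : κ => A.H1) ℚ} {ρ : ℝ} {R Z : Module.End ℚ A.H1}
    (hk : ∀ i, Kills (R ^ i * Z) φ) : KR (YY A ρ R Z) (A.Phi φ) := by
  have h1 : ∀ i, KR (A.ext (R ^ i * Z)) (A.Phi φ) := by
    intro i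
    refine KR_of_kills A (C := Submodule.span ℚ {R ^ i * Z}) (fun X hX => ?_)
      (Submodule.subset_span ⟨_, Submodule.mem_span_singleton_self _, rfl⟩)
    obtain ⟨c, rfl⟩ := Submodule.mem_span_singleton.1 hX
    intro v
    have h2 := hk i v
    simp only [LinearMap.smul_apply, MultilinearMap.map_update_smul, ← Finset.smul_sum]
    rw [h2, smul_zero]
  unfold YY
  have h2 : ∀ s : Finset ℕ, KR (∑ i ∈ s, (minpolyDiv ℚ ρ).coeff i • A.ext (R ^ i * Z))
      (A.Phi φ) := by
    intro s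
    induction s using Finset.induction_on with
    | empty =>
      intro u
      rw [Finset.sum_empty]
      refine Finset.sum_eq_zero fun p _ => ?_
      exact MultilinearMap.map_coord_zero _ p (by rw [update_self, LinearMap.zero_apply])
    | insert i s hi ih =>
      rw [Finset.sum_insert hi]
      exact ((h1 i).smul _).add ih
  exact h2 _

/-- **The descent of the annihilation.** -/
lemma kills_of_KR {ρ : ℝ} (hρ : IsIntegral ℚ ρ) {R Z : Module.End ℚ A.H1} {κ : Type} [Fintype κ]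
    [DecidableEq κ] {φ : MultilinearMap ℚ (fun _ : κ => A.H1) ℚ}
    (h : KR (YY A ρ R Z) (A.Phi φ)) : Kills Z φ := by
  intro w
  obtain ⟨f, hf⟩ := LY.exists_f hρ
  have h1 := h (fun r => A.per (w r))
  have h2 : ∀ r, A.Phi φ (update (fun r => A.per (w r)) r (YY A ρ R Z (A.per (w r)))) =
      ∑ i ∈ Finset.range (minpoly ℚ ρ).natDegree, (minpolyDiv ℚ ρ).coeff i *
        ((φ (update w r ((R ^ i * Z) (w r))) : ℚ) : ℝ) := by
    intro r
    have h3 : YY A ρ R Z (A.per (w r)) = ∑ i ∈ Finset.range (minpoly ℚ ρ).natDegree,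
        (minpolyDiv ℚ ρ).coeff i • A.per ((R ^ i * Z) (w r)) := by
      unfold YY
      rw [LinearMap.sum_apply]
      refine Finset.sum_congr rfl fun i _ => ?_
      rw [LinearMap.smul_apply, AbVar.ext_apply]
    rw [h3, MultilinearMap.map_update_sum]
    refine Finset.sum_congr rfl fun i _ => ?_
    rw [MultilinearMap.map_update_smul, smul_eq_mul]
    congr 1
    have h4 : update (fun r => A.per (w r)) r (A.per ((R ^ i * Z) (w r))) =
        fun r' => A.per (update w r ((R ^ i * Z) (w r)) r') := by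
      funext r'
      by_cases h5 : r' = r
      · subst h5
        rw [update_self, update_self]
      · rw [update_of_ne h5, update_of_ne h5]
    rw [h4, AbVar.Phi_per]
  rw [Finset.sum_congr rfl fun r _ => h2 r, Finset.sum_comm] at h1
  have h5 : ∑ i ∈ Finset.range (minpoly ℚ ρ).natDegree, (minpolyDiv ℚ ρ).coeff i *
      ((∑ r, φ (update w r ((R ^ i * Z) (w r))) : ℚ) : ℝ) = 0 := by
    rw [← h1]
    refine Finset.sum_congr rfl fun i _ => ?_
    rw [← Finset.mul_sum]
    push_cast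
    rfl
  have h6 := congrArg f h5
  rw [map_zero, map_sum] at h6
  have h7 : ∀ i ∈ Finset.range (minpoly ℚ ρ).natDegree, f ((minpolyDiv ℚ ρ).coeff i *
      ((∑ r, φ (update w r ((R ^ i * Z) (w r))) : ℚ) : ℝ)) =
      if i = 0 then ∑ r, φ (update w r ((R ^ i * Z) (w r))) else 0 := by
    intro i hi
    have h8 : (minpolyDiv ℚ ρ).coeff i *
        ((∑ r, φ (update w r ((R ^ i * Z) (w r))) : ℚ) : ℝ) =
        (∑ r, φ (update w r ((R ^ i * Z) (w r)))) • (minpolyDiv ℚ ρ).coeff i := by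
      rw [Rat.smul_def, mul_comm]
    rw [h8, map_smul, hf i (Finset.mem_range.1 hi), smul_eq_mul]
    by_cases h0 : i = 0
    · rw [if_pos h0, if_pos h0, mul_one]
    · rw [if_neg h0, if_neg h0, mul_zero]
  rw [Finset.sum_congr rfl h7, Finset.sum_ite_eq', if_pos (Finset.mem_range.2
    (minpoly.natDegree_pos hρ)), pow_zero, one_mul] at h6
  exact h6

end Pool.Agent.W5h86.LX
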