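import Pool.Agent.W5h86.LX.Su
import Pool.Agent.W5h86.LY.Rat

set_option autoImplicit false

/-!
# Rank two: the operators of the place
-/

open Module Function Polynomial

noncomputable section

namespace Pool.Agent.W5h86.LX

open Pool.Agent.Y102 Pool.Agent.W516.DR Pool.Agent.W516.KC Pool.Agent.W5h86.LZ Pool.Agent.W5h86.LY

variable {g : ℕ} {A : AbVar g} {P : Module.End ℚ A.H1}
  {M : (Fin g → ℂ) →ₗ[ℂ] (Fin g → ℂ)} {e : Basis (Fin g) ℂ (Fin g → ℂ)} {t : Fin g → ℝ}
  {i0 : Fin g}

/-- **The Lie algebra in coordinates.** -/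
theorem udat2 (h : Setup2 A P M e t i0) (hdim : 2 ≤ finrank ℂ (UU t i0)) :
    UDat2 (𝔥A A e i0) (HA A e i0) (UU t i0) := by
  have hcomm : ∀ X ∈ 𝔥A A e i0, ∀ v, tr (theta e i0) X (M v) = M (tr (theta e i0) X v) :=
    fun X hX v => h.M_comm (Submodule.mem_comap.1 hX) v
  refine ⟨?_, Hm_herm h.cx, ⟨ee i0, fun _ hv0 hv => h.neg hv0 hv⟩, ?_, ?_, ?_, ?_, ?_, ?_, hdim⟩
  · intro X hX Y hY
    rw [Submodule.mem_comap] at hX hY ⊢
    rw [map_sub, tr_mul, tr_mul]
    exact CR_bracket (fun X hX Y hY => A.LA_bracket hX hY) hX hY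
  · intro h0
    obtain ⟨v, hv0, hv⟩ := Matrix.exists_mulVec_eq_zero_iff.2 h0
    have h1 := h.neg hv0 (by
      unfold hf
      rw [hv, dotProduct_zero])
    rw [qf_eq] at h1
    unfold hf at h1
    rw [hv, dotProduct_zero, Complex.zero_re] at h1
    exact lt_irrefl _ h1
  · intro X hX
    exact skew_Hm h.cx fun u v =>
      CR_skew (fun X hX => A.LA_skew hX) (Submodule.mem_comap.1 hX) u v
  · intro X hX u hu
    exact h.st (hcomm X hX) hu
  · intro N hNU hN
    by_cases hb : N = ⊥
    · exact Or.inl hb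
    right
    refine le_antisymm hNU fun v hv => ?_
    obtain ⟨u, hu, hu0⟩ := Submodule.exists_mem_ne_zero_of_ne_bot hb
    obtain ⟨i, hi⟩ : ∃ i, u i ≠ 0 := by
      by_contra hcon
      push Not at hcon
      exact hu0 (funext hcon)
    have hui := (mem_UU u).1 (hNU hu)
    have hvU := (mem_UU v).1 hv
    have hsi : sc t i0 i = t i0 := by
      by_contra hcon
      exact hi (hui i hcon)
    let W : Submodule ℝ (Fin g → ℂ) :=
      (N.restrictScalars ℝ).comap ((theta e i0).symm : (Fin g → ℂ) →ₗ[ℝ] (Fin g → ℂ))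
    have hW : ∀ v, v ∈ W ↔ (theta e i0).symm v ∈ N := fun v => Iff.rfl
    have h1 : ∀ Y ∈ A.CR A.LA, ∀ v ∈ W, Y v ∈ W := by
      intro Y hY v hv
      obtain ⟨X', rfl⟩ := exists_tr h.cx (h.J_comm hY)
      obtain ⟨z, rfl⟩ := (theta e i0).surjective v
      rw [hW, LinearEquiv.symm_apply_apply] at hv
      rw [hW, tr_theta, LinearEquiv.symm_apply_apply]
      exact hN X' hY z hv
    set X : Matrix (Fin g) (Fin g) ℂ :=
      Matrix.of fun j k => if k = i then v j * (u i)⁻¹ else 0 with hX
    have hXz : ∀ z : Fin g → ℂ, X.mulVec z = fun j => v j * (u i)⁻¹ * z i := by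
      intro z
      funext j
      unfold Matrix.mulVec dotProduct
      simp only [hX, Matrix.of_apply]
      rw [Finset.sum_eq_single i]
      · rw [if_pos rfl]
      · intro k _ hk
        rw [if_neg hk, zero_mul]
      · intro h
        exact absurd (Finset.mem_univ _) h
    have h2 := stable' h.hEA h1 (Y := tr (theta e i0) X) (fun w => by
      rw [ext_eq h.hM, ext_eq h.hM]
      refine h.comm_of_coord (fun z => ?_) w
      rw [hXz, hXz]
      funext j
      beta_reduce
      rw [hsi]
      by_cases hj : sc t i0 j = t i0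
      · rw [hj]
        ring
      · rw [hvU j hj]
        ring)
    have h3 := h2 (theta e i0 u) (by
      rw [hW, LinearEquiv.symm_apply_apply]
      exact hu)
    rw [hW, tr_theta, LinearEquiv.symm_apply_apply, hXz] at h3
    have h4 : (fun j => v j * (u i)⁻¹ * u i) = v := by
      funext j
      rw [mul_assoc, inv_mul_cancel₀ hi, mul_one]
    rw [h4] at h3
    exact h3
  · exact nd_Hm h.cx (fun Y hY => h.J_comm hY) (fun Y hY => CR_nd A.trace_LA hY)
  · refine ⟨ee i0, ?_, ?_⟩
    · rw [mem_UU]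
      intro i hi
      refine ee_ne ?_
      rintro rfl
      exact hi sc_same
    · rw [qf_eq, h.hf_self, Complex.ofReal_re]
      exact h.pos



/-- the rationality data -/
lemma rho_int (h : Setup2 A P M e t i0) : (∀ f : ℚ[X], A.ext (aeval (-(P * P)) f) (e i0) =
      (aeval (t i0 ^ 2 : ℝ) f) • e i0) ∧ IsIntegral ℚ (t i0 ^ 2 : ℝ) := by
  set R : Module.End ℚ A.H1 := -(P * P) with hR
  set ρ : ℝ := t i0 ^ 2 with hρd
  have heig : ∀ f : ℚ[X], A.ext (aeval R f) (e i0) = (aeval ρ f) • e i0 := by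
    intro f
    have h1 : extA A R (e i0) = ρ • e i0 := by
      rw [extA_apply, ← theta_ee (e := e) (i0 := i0), h.sq, ← map_smul]
      congr 1
      funext i
      rw [Pi.smul_apply, Complex.real_smul]
      by_cases hi : i = i0
      · subst hi
        rw [sc_same, hρd]
      · rw [ee_ne hi, mul_zero, mul_zero]
    have h2 : ∀ q : ℝ[X], aeval (extA A R) q (e i0) = (q.eval ρ) • e i0 := by
      intro q
      induction q using Polynomial.induction_on' with
      | add p q hp hq => rw [map_add, LinearMap.add_apply, hp, hq, eval_add, add_smul]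
      | monomial n a =>
        rw [aeval_monomial, eval_monomial, Module.End.mul_apply, Module.algebraMap_end_apply]
        have h3 : (extA A R ^ n) (e i0) = (ρ ^ n) • e i0 := by
          induction n with
          | zero => rw [pow_zero, pow_zero, one_smul, Module.End.one_apply]
          | succ n ih => rw [pow_succ', Module.End.mul_apply, ih, map_smul, h1, smul_smul, pow_succ]
        rw [h3, smul_smul]
    rw [ext_aeval, h2, eval_map_algebraMap]
  have he0 : e i0 ≠ 0 := e.ne_zero i0
  have hRint : IsIntegral ℚ R := Algebra.IsIntegral.isIntegral R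
  have hρ : IsIntegral ℚ ρ := by
    refine ⟨minpoly ℚ R, minpoly.monic hRint, ?_⟩
    have h1 := heig (minpoly ℚ R)
    rw [minpoly.aeval] at h1
    have h2 : A.ext (0 : Module.End ℚ A.H1) = 0 := map_zero (extA A)
    rw [h2, LinearMap.zero_apply] at h1
    rw [← aeval_def]
    exact (smul_eq_zero.1 h1.symm).resolve_right he0
  exact ⟨heig, hρ⟩

lemma rho_min (h : Setup2 A P M e t i0) (hsimple : ∀ Q ∈ A.EA, Q ≠ 0 → Function.Injective Q) :
    aeval (-(P * P)) (minpoly ℚ (t i0 ^ 2 : ℝ)) = 0 := by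
  obtain ⟨heig, hρ⟩ := rho_int h
  set R : Module.End ℚ A.H1 := -(P * P) with hR
  set ρ : ℝ := t i0 ^ 2 with hρd
  have he0 : e i0 ≠ 0 := e.ne_zero i0
  have hRP : R ∈ Algebra.adjoin ℚ {P} := by
    have h1 : P ∈ Algebra.adjoin ℚ {P} := Algebra.self_mem_adjoin_singleton ℚ P
    exact neg_mem (mul_mem h1 h1)
  by_contra hne
  have h1 : aeval R (minpoly ℚ ρ) ∈ Algebra.adjoin ℚ {P} := by
    have h2 : aeval R (minpoly ℚ ρ) ∈ Algebra.adjoin ℚ {R} := aeval_mem_adjoin_singleton ℚ R
    refine (Algebra.adjoin_le ?_) h2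
    rintro x hx
    rw [Set.mem_singleton_iff] at hx
    rw [hx]
    exact hRP
  have h2 : aeval R (minpoly ℚ ρ) ∈ A.EA := fun X hX => comm_adjoin (h.hP X hX) h1
  have h3 := hsimple _ h2 hne
  obtain ⟨G, hG⟩ := (aeval R (minpoly ℚ ρ)).exists_leftInverse_of_injective
    (LinearMap.ker_eq_bot.2 h3)
  have h4 : A.ext G (A.ext (aeval R (minpoly ℚ ρ)) (e i0)) = e i0 := by
    rw [← LinearMap.comp_apply, ← AbVar.ext_mul]
    have h5 : G * aeval R (minpoly ℚ ρ) = 1 := hG
    rw [h5, ← extA_apply, map_one]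
    rfl
  rw [heig, minpoly.aeval, zero_smul, map_zero] at h4
  exact he0 h4.symm

/-- the properties of the operators of the place -/
lemma YY_props (h : Setup2 A P M e t i0) (hsimple : ∀ Q ∈ A.EA, Q ≠ 0 → Function.Injective Q)
    (hPs : IsSkew A.om P) {Z : Module.End ℚ A.H1} (hZ1 : IsSkew A.om Z) (hZ2 : Z * P = P * Z) :
    (∀ v, YY A (t i0 ^ 2) (-(P * P)) Z (M v) = M (YY A (t i0 ^ 2) (-(P * P)) Z v)) ∧
    (∀ v, ∃ u ∈ UU t i0, YY A (t i0 ^ 2) (-(P * P)) Z v = theta e i0 u) ∧
    (∀ v ∈ VV e t i0, YY A (t i0 ^ 2) (-(P * P)) Z v = 0) ∧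
    (∀ u v, A.E (YY A (t i0 ^ 2) (-(P * P)) Z u) v +
      A.E u (YY A (t i0 ^ 2) (-(P * P)) Z v) = 0) := by
  obtain ⟨heig, hρ⟩ := rho_int h
  have hRmin := rho_min h hsimple
  set R : Module.End ℚ A.H1 := -(P * P) with hR
  set ρ : ℝ := t i0 ^ 2 with hρd
  -- the real operator
  have hZ2' : ∀ x, Z (P x) = P (Z x) := fun x => LinearMap.congr_fun hZ2 x
  have hRx : ∀ x, R x = -(P (P x)) := fun x => rfl
  have hRZ : R * Z = Z * R := by
    refine LinearMap.ext fun x => ?_
    rw [Module.End.mul_apply, Module.End.mul_apply, hRx, hRx, map_neg, hZ2', hZ2']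
  have hRZi : ∀ i, R ^ i * Z = Z * R ^ i := fun i => (show Commute R Z from hRZ).pow_left i
  have hRs : ∀ u v, A.om (R u) v = A.om u (R v) := by
    intro u v
    have h1 := hPs (P u) v
    have h2 := hPs u (P v)
    simp only [hR, LinearMap.neg_apply, Module.End.mul_apply, map_neg]
    linarith
  have hRis : ∀ i, ∀ u v, A.om ((R ^ i) u) v = A.om u ((R ^ i) v) := by
    intro i
    induction i with
    | zero => intro u v; rfl
    | succ i ih =>
      intro u v
      rw [pow_succ, Module.End.mul_apply, ih, hRs, ← Module.End.mul_apply, ← pow_succ', pow_succ]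
  have hYP : ∀ v, YY A ρ R Z (M v) = M (YY A ρ R Z v) := by
    intro v
    rw [← ext_eq h.hM, ← ext_eq h.hM]
    have h1 : YY A ρ R Z * extA A P = extA A P * YY A ρ R Z := by
      rw [YY_eq hρ]
      have h2 : Commute (extA A R) (extA A P) := by
        have h3 : R * P = P * R := by
          refine LinearMap.ext fun x => ?_
          rw [Module.End.mul_apply, Module.End.mul_apply, hRx, hRx, map_neg]
        change extA A R * extA A P = extA A P * extA A R
        rw [← map_mul, h3, map_mul]
      have h3 : aeval (extA A R) (minpolyDiv ℚ ρ) * extA A P =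
          extA A P * aeval (extA A R) (minpolyDiv ℚ ρ) := by
        have h4 : aeval (extA A R) (minpolyDiv ℚ ρ) ∈ Algebra.adjoin ℝ {extA A R} :=
          aeval_mem_adjoin_singleton ℝ (extA A R)
        have h5 : Algebra.adjoin ℝ {extA A R} ≤ Subalgebra.centralizer ℝ {extA A P} := by
          apply Algebra.adjoin_le
          intro x hx
          rw [Set.mem_singleton_iff] at hx
          rw [SetLike.mem_coe, Subalgebra.mem_centralizer_iff]
          intro y hy
          rw [Set.mem_singleton_iff] at hy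
          rw [hx, hy]
          exact h2.symm
        have h6 := Subalgebra.mem_centralizer_iff ℝ |>.1 (h5 h4) (extA A P) rfl
        exact h6.symm
      have h4 : extA A Z * extA A P = extA A P * extA A Z := by
        rw [← map_mul, hZ2, map_mul]
      rw [mul_assoc, h4, ← mul_assoc, h3, mul_assoc]
    exact LinearMap.congr_fun h1 v
  have hYU : ∀ v, ∃ u ∈ UU t i0, YY A ρ R Z v = theta e i0 u := by
    intro v
    obtain ⟨z, hz⟩ := (theta e i0).surjective (YY A ρ R Z v)
    refine ⟨z, ?_, hz.symm⟩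
    rw [mem_UU]
    intro i hi
    have h1 := YY_root hρ Z hRmin v
    rw [← hz, hR, h.sq, ← map_smul] at h1
    have h2 := congrFun ((theta e i0).injective h1) i
    rw [Pi.smul_apply, Complex.real_smul, ← sub_eq_zero, ← sub_mul] at h2
    refine (mul_eq_zero.1 h2).resolve_left ?_
    rw [← Complex.ofReal_sub, hρd]
    have h3 : sc t i0 i ^ 2 - t i0 ^ 2 = (sc t i0 i - t i0) * (sc t i0 i + t i0) := by ring
    rw [h3]
    have h4 := h.hd i i0
    rw [sc_same] at h4
    exact_mod_cast mul_ne_zero (sub_ne_zero.2 hi) h4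
  refine ⟨hYP, hYU, fun v hv => ?_, ?_⟩
  · obtain ⟨u, hu, h1⟩ := hYU v
    have h2 := h.stV hYP hv
    rw [h1, mem_VV] at h2
    rw [mem_UU] at hu
    have h3 : u = 0 := by
      funext i
      by_cases hi : sc t i0 i = t i0
      · exact h2 i hi
      · exact hu i hi
    rw [h1, h3, map_zero]
  · intro u v
    unfold YY
    rw [LinearMap.sum_apply, LinearMap.sum_apply, map_sum, map_sum, LinearMap.sum_apply,
      ← Finset.sum_add_distrib]
    refine Finset.sum_eq_zero fun i _ => ?_
    rw [LinearMap.smul_apply, LinearMap.smul_apply, map_smul, map_smul, LinearMap.smul_apply,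
      ← smul_add]
    have h1 : A.E (A.ext (R ^ i * Z) u) v + A.E u (A.ext (R ^ i * Z) v) = 0 := by
      have h2 : IsSkew A.om (R ^ i * Z) := by
        intro x y
        rw [Module.End.mul_apply, hRis, hRZi, Module.End.mul_apply]
        exact hZ1 x ((R ^ i) y)
      exact CR_skew (C := Submodule.span ℚ {R ^ i * Z}) (fun X hX => by
        obtain ⟨c, rfl⟩ := Submodule.mem_span_singleton.1 hX
        intro x y
        have h3 := h2 x y
        simp only [LinearMap.smul_apply, map_smul]
        rw [← smul_add, h3, smul_zero])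
        (Submodule.subset_span ⟨_, Submodule.mem_span_singleton_self _, rfl⟩) u v
    rw [h1, smul_zero]


end Pool.Agent.W5h86.LX
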