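import Pool.Agent.W5h86.LY.Onb2

set_option autoImplicit false

/-!
# Lie algebras of Lorentzian type on a subspace of dimension at least two
-/

open Matrix Module

namespace Pool.Agent.W5h86.LX

open Pool.Agent.W5h86.LZ Pool.Agent.W5h86.LY

variable {ι κ : Type} [Fintype ι] [DecidableEq ι] [Fintype κ] [DecidableEq κ]

/-- The data: a Lie algebra of skew-hermitian matrices, a stable irreducible subspace. -/
structure UDat2 (𝔥 : Submodule ℝ (Matrix ι ι ℂ)) (H : Matrix ι ι ℂ) (U : Submodule ℂ (ι → ℂ)) :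
    Prop where
  br : ∀ X ∈ 𝔥, ∀ Y ∈ 𝔥, X * Y - Y * X ∈ 𝔥
  herm : H.IsHermitian
  lor : Lor H
  det : H.det ≠ 0
  skew : ∀ X ∈ 𝔥, Xᴴ * H + H * X = 0
  st : ∀ X ∈ 𝔥, ∀ u ∈ U, X *ᵥ u ∈ U
  irr : ∀ N : Submodule ℂ (ι → ℂ), N ≤ U → (∀ X ∈ 𝔥, ∀ u ∈ N, X *ᵥ u ∈ N) → N = ⊥ ∨ N = U
  nd : ∀ X ∈ 𝔥, (∀ Y ∈ 𝔥, tf X Y = 0) → X = 0
  pos : ∃ u ∈ U, 0 < qf H u
  dim : 2 ≤ finrank ℂ U

/-- **there are elements with positive trace of the square** -/
theorem UDat2.exists_trace_pos {𝔥 : Submodule ℝ (Matrix ι ι ℂ)} {H : Matrix ι ι ℂ}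
    {U : Submodule ℂ (ι → ℂ)} (h : UDat2 𝔥 H U) : ∃ X ∈ 𝔥, 0 < tf X X := by
  by_contra hcon
  push Not at hcon
  obtain ⟨d, w, hw, hexp⟩ := exists_onb h.nd hcon
  obtain ⟨u₀, hu₀, hpos⟩ := h.pos
  set n := finrank ℂ U with hn
  have hne : Nonempty (Fin n) := ⟨⟨0, by have := h.dim; omega⟩⟩
  let bU : Basis (Fin n) ℂ U := finBasis ℂ U
  let Bu : Matrix ι (Fin n) ℂ := Matrix.of fun i j => (bU j : ι → ℂ) i
  have hBu : ∀ c : Fin n → ℂ, Bu *ᵥ c = ((∑ j, c j • bU j : U) : ι → ℂ) := by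
    intro c
    funext i
    rw [Submodule.coe_sum, Finset.sum_apply]
    unfold mulVec dotProduct
    refine Finset.sum_congr rfl fun j _ => ?_
    rw [Submodule.coe_smul, Pi.smul_apply, smul_eq_mul, mul_comm]
    rfl
  have hBuU : ∀ c, Bu *ᵥ c ∈ U := fun c => by
    rw [hBu]
    exact Submodule.coe_mem _
  have hBusurj : ∀ u ∈ U, ∃ c, Bu *ᵥ c = u := by
    intro u hu
    refine ⟨bU.repr ⟨u, hu⟩, ?_⟩
    rw [hBu, bU.sum_repr]
  have hBuinj : ∀ c, Bu *ᵥ c = 0 → c = 0 := by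
    intro c hc
    rw [hBu] at hc
    have h1 : (∑ j, c j • bU j : U) = 0 := Subtype.ext hc
    funext j
    exact Fintype.linearIndependent_iff.1 bU.linearIndependent c h1 j
  have hBuinj' : Function.Injective (fun c => Bu *ᵥ c) := by
    intro c c' hcc
    have h1 := hBuinj (c - c') (by
      rw [mulVec_sub, sub_eq_zero]
      exact hcc)
    exact sub_eq_zero.1 h1
  -- the restriction to the subspace
  have hπ : ∀ X : Matrix ι ι ℂ, (∀ u ∈ U, X *ᵥ u ∈ U) →
      ∃ Z : Matrix (Fin n) (Fin n) ℂ, X * Bu = Bu * Z := by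
    intro X hX
    have h1 : ∀ j, ∃ c, Bu *ᵥ c = X *ᵥ (Bu *ᵥ Pi.single j 1) := fun j =>
      hBusurj _ (hX _ (hBuU _))
    choose c hc using h1
    refine ⟨Matrix.of fun i j => c j i, ?_⟩
    ext i j
    have h2 := congrFun (hc j) i
    rw [mulVec_mulVec, mulVec_single_one] at h2
    exact h2.symm
  have hcancel : ∀ Z Z' : Matrix (Fin n) (Fin n) ℂ, Bu * Z = Bu * Z' → Z = Z' := by
    intro Z Z' hZ
    ext i j
    have h1 : Bu *ᵥ (Z *ᵥ Pi.single j 1) = Bu *ᵥ (Z' *ᵥ Pi.single j 1) := by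
      rw [mulVec_mulVec, mulVec_mulVec, hZ]
    have h2 := hBuinj' h1
    rw [mulVec_single_one, mulVec_single_one] at h2
    exact congrFun h2 i
  choose w' hw' using fun i => hπ (w i) (fun u hu => h.st _ (hw i) u hu)
  set HU : Matrix (Fin n) (Fin n) ℂ := Buᴴ * H * Bu with hHU
  have hqf : ∀ c, qf HU c = qf H (Bu *ᵥ c) := by
    intro c
    unfold qf
    rw [hHU, Matrix.mul_assoc, ← mulVec_mulVec, ← mulVec_mulVec, star_mulVec, ← dotProduct_mulVec]
  let 𝔰 : Set (Matrix (Fin n) (Fin n) ℂ) := {Z | ∃ X ∈ 𝔥, X * Bu = Bu * Z}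
  have hirr : Irr w' := by
    intro N hN
    have h1 : ∀ X ∈ 𝔥, ∀ c ∈ N, ∃ c' ∈ N, Bu *ᵥ c' = X *ᵥ (Bu *ᵥ c) := by
      intro X hX c hc
      refine ⟨-∑ i, (tf (w i) X : ℂ) • (w' i *ᵥ c), N.neg_mem (N.sum_mem fun i _ =>
        N.smul_mem _ (hN i c hc)), ?_⟩
      conv_rhs => rw [hexp X hX, neg_mulVec, sum_mulVec]
      rw [mulVec_neg, mulVec_sum]
      congr 1
      refine Finset.sum_congr rfl fun i _ => ?_
      rw [mulVec_smul, mulVec_mulVec, ← hw' i, ← mulVec_mulVec, smul_mulVec]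
      funext x
      simp
    rcases h.irr (N.map Bu.mulVecLin) (by
        rintro _ ⟨c, -, rfl⟩
        exact hBuU c) (by
        rintro X hX _ ⟨c, hc, rfl⟩
        obtain ⟨c', hc', h2⟩ := h1 X hX c hc
        exact ⟨c', hc', h2⟩) with h2 | h2
    · left
      rw [eq_bot_iff]
      intro c hc
      have h3 : Bu *ᵥ c ∈ N.map Bu.mulVecLin := ⟨c, hc, rfl⟩
      rw [h2, Submodule.mem_bot] at h3
      rw [Submodule.mem_bot]
      exact hBuinj c h3
    · right
      rw [eq_top_iff]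
      intro c _
      have h3 : Bu *ᵥ c ∈ N.map Bu.mulVecLin := by
        rw [h2]
        exact hBuU c
      obtain ⟨c', hc', h4⟩ := h3
      have h5 : c' = c := hBuinj' h4
      rw [← h5]
      exact hc'
  have hHUh : HU.IsHermitian := by
    unfold Matrix.IsHermitian
    rw [hHU, conjTranspose_mul, conjTranspose_mul, conjTranspose_conjTranspose, h.herm.eq,
      Matrix.mul_assoc]
  obtain ⟨c₀, hc₀⟩ := hBusurj u₀ hu₀
  have hhf : ∀ c c', hf HU c c' = hf H (Bu *ᵥ c) (Bu *ᵥ c') := by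
    intro c c'
    unfold hf
    rw [hHU, Matrix.mul_assoc, ← mulVec_mulVec, ← mulVec_mulVec, star_mulVec, ← dotProduct_mulVec]
  have hnegU : ∀ c, c ≠ 0 → hf HU c₀ c = 0 → qf HU c < 0 := by
    intro c hc hcc
    rw [hqf]
    rw [hhf, hc₀] at hcc
    exact neg_of_orth h.lor h.herm hpos (fun h0 => hc (hBuinj c h0)) hcc
  have hdetU : IsUnit HU := by
    rw [isUnit_iff_isUnit_det, isUnit_iff_ne_zero]
    intro h3
    obtain ⟨z, hz0, hz⟩ := exists_mulVec_eq_zero_iff.2 h3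
    have h4 := hnegU z hz0 (by
      unfold hf
      rw [hz, dotProduct_zero])
    unfold qf at h4
    rw [hz, dotProduct_zero, Complex.zero_re] at h4
    exact lt_irrefl _ h4
  -- a negative vector
  obtain ⟨v, hv0, hv⟩ : ∃ v, v ≠ 0 ∧ hf HU c₀ v = 0 := by
    let Φ : (Fin n → ℂ) →ₗ[ℂ] ℂ := hfL HU c₀
    have h1 : LinearMap.ker Φ ≠ ⊥ := by
      intro h2
      have h3 := LinearMap.finrank_range_add_finrank_ker Φ
      rw [h2, finrank_bot, finrank_fintype_fun_eq_card, Fintype.card_fin] at h3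
      have h4 : finrank ℂ (LinearMap.range Φ) ≤ 1 := by
        have := Submodule.finrank_le (LinearMap.range Φ)
        rwa [finrank_self] at this
      have := h.dim
      omega
    obtain ⟨v, hv, hv0⟩ := Submodule.exists_mem_ne_zero_of_ne_bot h1
    exact ⟨v, hv0, hv⟩
  refine not_indefinite (𝔰 := 𝔰) hirr (fun i => ⟨w i, hw i, hw' i⟩) ?_ hHUh hdetU ?_
    (u := c₀) (v := v) (by rw [hqf, hc₀]; exact hpos) (hnegU v hv0 hv)
  · rintro Z ⟨X, hX, hXZ⟩ M
    set c : Fin d → Fin d → ℝ := fun j i => -tf (w j) (X * w i - w i * X) with hc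
    have hanti : ∀ i j, c i j = -c j i := by
      intro i j
      simp only [hc, tf, Matrix.mul_sub, trace_sub, Complex.sub_re]
      have e1 : (w i * (X * w j)).trace = (w j * (w i * X)).trace := by
        rw [← Matrix.mul_assoc, trace_mul_comm]
      have e2 : (w i * (w j * X)).trace = (w j * (X * w i)).trace := by
        rw [← Matrix.mul_assoc (w j), ← trace_mul_comm (w i)]
      rw [e1, e2]
      ring
    have hbrk : ∀ i, X * w i - w i * X = ∑ j, c j i • w j := by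
      intro i
      conv_lhs => rw [hexp _ (h.br X hX _ (hw i))]
      rw [← Finset.sum_neg_distrib]
      exact Finset.sum_congr rfl fun j _ => by rw [neg_smul]
    refine avg_equi c hanti (fun i => ?_) M
    apply hcancel
    have h1 : Bu * (Z * w' i - w' i * Z) = (X * w i - w i * X) * Bu := by
      rw [Matrix.mul_sub, Matrix.sub_mul, ← Matrix.mul_assoc, ← hXZ, Matrix.mul_assoc, ← hw' i,
        ← Matrix.mul_assoc, ← Matrix.mul_assoc Bu, ← hw' i, Matrix.mul_assoc (w i), ← hXZ,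
        ← Matrix.mul_assoc (w i)]
    rw [h1, hbrk, Matrix.sum_mul, Matrix.mul_sum]
    refine Finset.sum_congr rfl fun j _ => ?_
    rw [Matrix.smul_mul, Matrix.mul_smul, hw' j]
  · rintro Z ⟨X, hX, hXZ⟩
    have h1 : Zᴴ * Buᴴ = Buᴴ * Xᴴ := by
      rw [← conjTranspose_mul, ← conjTranspose_mul, hXZ]
    rw [hHU]
    have h2 : Zᴴ * (Buᴴ * H * Bu) + Buᴴ * H * Bu * Z = Buᴴ * (Xᴴ * H + H * X) * Bu := by
      rw [← Matrix.mul_assoc, ← Matrix.mul_assoc, h1, Matrix.mul_assoc (Buᴴ * H), ← hXZ]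
      simp only [Matrix.mul_add, Matrix.add_mul, Matrix.mul_assoc]
    rw [h2, h.skew X hX, Matrix.mul_zero, Matrix.zero_mul]


/-- the orthogonal decomposition -/
lemma UDat2.decomp {𝔥 : Submodule ℝ (Matrix ι ι ℂ)} {U : Submodule ℂ (ι → ℂ)} {H : Matrix ι ι ℂ} (h : UDat2 𝔥 H U) (v : ι → ℂ) :
    ∃ u ∈ U, ∀ u' ∈ U, hf H u' (v - u) = 0 := by
  obtain ⟨u₀, hu₀, hpos⟩ := h.pos
  let b : Basis (Fin (finrank ℂ U)) ℂ U := finBasis ℂ U
  let Φ : (ι → ℂ) →ₗ[ℂ] (Fin (finrank ℂ U) → ℂ) := LinearMap.pi fun i => hfL H (b i : ι → ℂ)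
  have hΦ : ∀ v i, Φ v i = hf H (b i) v := fun v i => rfl
  have hker : ∀ v, v ∈ LinearMap.ker Φ ↔ ∀ u ∈ U, hf H u v = 0 := by
    intro v
    rw [LinearMap.mem_ker]
    constructor
    · intro h0 u hu
      have h1 : u = ((∑ i, b.repr ⟨u, hu⟩ i • b i : U) : ι → ℂ) := by rw [b.sum_repr]
      have h2 : ∀ s : Finset (Fin (finrank ℂ U)),
          hf H ((∑ i ∈ s, b.repr ⟨u, hu⟩ i • b i : U) : ι → ℂ) v = 0 := by
        intro s
        induction s using Finset.induction_on with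
        | empty =>
          rw [Finset.sum_empty]
          exact hf_zero_left H v
        | insert a s ha ih =>
          rw [Finset.sum_insert ha, Submodule.coe_add, Submodule.coe_smul, hf_add_left,
            hf_smul_left, ih, ← hΦ, h0]
          simp
      rw [h1]
      exact h2 _
    · intro h0
      funext i
      exact h0 _ (b i).2
  have hdisj : U ⊓ LinearMap.ker Φ = ⊥ := by
    rw [eq_bot_iff]
    rintro v ⟨hv1, hv2⟩
    have h1 := (hker v).1 hv2
    rw [Submodule.mem_bot]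
    by_contra hv0
    have h2 := neg_of_orth h.lor h.herm hpos hv0 (h1 u₀ hu₀)
    rw [qf_eq, h1 v hv1] at h2
    exact lt_irrefl _ h2
  have htop : U ⊔ LinearMap.ker Φ = ⊤ := by
    apply Submodule.eq_top_of_finrank_eq
    have h1 := Submodule.finrank_sup_add_finrank_inf_eq U (LinearMap.ker Φ)
    rw [hdisj, finrank_bot, add_zero] at h1
    have h2 := LinearMap.finrank_range_add_finrank_ker Φ
    have h3 := Submodule.finrank_le (LinearMap.range Φ)
    rw [finrank_fintype_fun_eq_card, Fintype.card_fin] at h3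
    have h4 := Submodule.finrank_le (U ⊔ LinearMap.ker Φ)
    omega
  have h1 : v ∈ U ⊔ LinearMap.ker Φ := by
    rw [htop]
    trivial
  obtain ⟨u, hu, y, hy, huy⟩ := Submodule.mem_sup.1 h1
  refine ⟨u, hu, fun u' hu' => ?_⟩
  rw [← huy, add_sub_cancel_left]
  exact (hker y).1 hy u' hu'

/-- eigenvectors which are not in the orthogonal complement -/
lemma UDat2.eig_mem {𝔥 : Submodule ℝ (Matrix ι ι ℂ)} {U : Submodule ℂ (ι → ℂ)} {H : Matrix ι ι ℂ} (h : UDat2 𝔥 H U) {X : Matrix ι ι ℂ} (hX : X ∈ 𝔥)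
    {g : ι → ℂ} {μ : ℂ} (hμ : μ.re ≠ 0) (hg : X *ᵥ g = μ • g) : g ∈ U := by
  obtain ⟨u₀, hu₀, hpos⟩ := h.pos
  obtain ⟨u, hu, hy⟩ := h.decomp g
  set y := g - u with hyd
  have h1 : ∀ u' ∈ U, hf H u' (X *ᵥ y) = 0 := by
    intro u' hu'
    have h2 := hf_skew (h.skew X hX) u' y
    rw [hy _ (h.st X hX u' hu'), zero_add] at h2
    exact h2
  have h2 : X *ᵥ y - μ • y = μ • u - X *ᵥ u := by
    rw [hyd, mulVec_sub, hg, smul_sub]
    abel
  have h3 : X *ᵥ y - μ • y = 0 := by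
    have h4 : X *ᵥ y - μ • y ∈ U := by
      rw [h2]
      exact U.sub_mem (U.smul_mem _ hu) (h.st X hX u hu)
    have h5 : ∀ u' ∈ U, hf H u' (X *ᵥ y - μ • y) = 0 := by
      intro u' hu'
      rw [hf_sub_right, h1 u' hu', hf_smul_right, hy u' hu', mul_zero, sub_zero]
    by_contra h0
    have h6 := neg_of_orth h.lor h.herm hpos h0 (h5 u₀ hu₀)
    rw [qf_eq, h5 _ h4] at h6
    exact lt_irrefl _ h6
  have h4 : hf H y y = 0 := by
    have h5 := isotropic (h.skew X hX) (sub_eq_zero.1 h3)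
    refine (mul_eq_zero.1 h5).resolve_left ?_
    exact mul_ne_zero two_ne_zero (by exact_mod_cast hμ)
  have h5 : y = 0 := by
    by_contra h0
    have h6 := neg_of_orth h.lor h.herm hpos h0 (hy u₀ hu₀)
    rw [qf_eq, h4] at h6
    exact lt_irrefl _ h6
  have h6 : g = u := by
    rw [← sub_eq_zero]
    exact h5
  rw [h6]
  exact hu

end Pool.Agent.W5h86.LX
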