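import Pool.Agent.W5h86.LX.PF3

set_option autoImplicit false

/-!
# The Lie algebra `su(1, 1)`
-/

open Matrix Module

namespace Pool.Agent.W5h86.LX

open Pool.Agent.W5h86.LZ Pool.Agent.W5h86.LY

variable {ι : Type} [Fintype ι] [DecidableEq ι] {𝔥 : Submodule ℝ (Matrix ι ι ℂ)}
  {U : Submodule ℂ (ι → ℂ)} {H : Matrix ι ι ℂ}

/-- the standard situation -/
lemma exists_offdiag {p q : ι} (hpq : p ≠ q) (hp : ee p ∈ U) (hq : ee q ∈ U)
    (h2 : finrank ℂ U = 2) (hst : ∀ X ∈ 𝔥, ∀ u ∈ U, X *ᵥ u ∈ U)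
    (hirr : ∀ N : Submodule ℂ (ι → ℂ), N ≤ U → (∀ X ∈ 𝔥, ∀ u ∈ N, X *ᵥ u ∈ N) → N = ⊥ ∨ N = U) :
    ∃ Y ∈ 𝔥, Y p q ≠ 0 := by
  have hU : U = Submodule.span ℂ {ee p, ee q} := by
    symm
    apply Submodule.eq_of_le_of_finrank_eq
    · rw [Submodule.span_le]
      rintro x (rfl | rfl)
      · exact hp
      · exact hq
    · rw [h2]
      have hli : LinearIndependent ℂ (![ee p, ee q] : Fin 2 → ι → ℂ) := by
        rw [LinearIndependent.pair_iff]
        intro s t hst
        have h3 := congrFun hst p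
        have h4 := congrFun hst q
        simp only [Pi.add_apply, Pi.smul_apply, smul_eq_mul, ee_same, ee_ne hpq, ee_ne hpq.symm,
          mul_one, mul_zero, add_zero, zero_add, Pi.zero_apply] at h3 h4
        exact ⟨h3, h4⟩
      have h3 := finrank_span_eq_card hli
      rw [Matrix.range_cons, Matrix.range_cons, Matrix.range_empty, Set.union_empty,
        Set.singleton_union, Fintype.card_fin] at h3
      exact h3
  by_contra hcon
  push Not at hcon
  have hN : ∀ X ∈ 𝔥, ∀ u ∈ Submodule.span ℂ {(ee q : ι → ℂ)}, X *ᵥ u ∈ Submodule.span ℂ {(ee q : ι → ℂ)} := by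
    intro X hX u hu
    obtain ⟨c, rfl⟩ := Submodule.mem_span_singleton.1 hu
    rw [mulVec_smul]
    apply Submodule.smul_mem
    have h3 := hst X hX _ hq
    rw [hU, Submodule.mem_span_pair] at h3
    obtain ⟨x, y, hxy⟩ := h3
    have h4 := congrFun hxy p
    rw [mulVec_ee, hcon X hX] at h4
    simp only [Pi.add_apply, Pi.smul_apply, smul_eq_mul, ee_same, ee_ne hpq,
      mul_one, mul_zero, add_zero] at h4
    rw [← hxy, h4, zero_smul, zero_add]
    exact Submodule.smul_mem _ _ (Submodule.mem_span_singleton_self _)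
  rcases hirr _ (by
    rw [Submodule.span_singleton_le_iff_mem]
    exact hq) hN with h3 | h3
  · rw [Submodule.span_singleton_eq_bot] at h3
    have h4 := congrFun h3 q
    rw [ee_same] at h4
    exact one_ne_zero h4
  · rw [← h3, Submodule.mem_span_singleton] at hp
    obtain ⟨c, hc⟩ := hp
    have h4 := congrFun hc p
    simp only [Pi.smul_apply, smul_eq_mul, ee_same, ee_ne hpq, mul_zero] at h4
    exact zero_ne_one h4

/-- **The generators of `su(1, 1)`.** -/
theorem UDat2.frame (h : UDat2 𝔥 H U) (h2 : finrank ℂ U = 2) :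
    ∃ a b : ι → ℂ, a ∈ U ∧ b ∈ U ∧ hf H a a = 0 ∧ hf H b b = 0 ∧ hf H a b = 1 ∧
      (∃ T ∈ 𝔥, ∀ v, T *ᵥ v = (Complex.I * hf H a v) • a) ∧
      (∃ T ∈ 𝔥, ∀ v, T *ᵥ v = (Complex.I * hf H b v) • b) ∧
      (∃ T ∈ 𝔥, ∀ v, T *ᵥ v = hf H b v • a - hf H a v • b) := by
  obtain ⟨p, q, hpq⟩ : ∃ p q : ι, p ≠ q := by
    have h1 : 1 < Fintype.card ι := by
      have h2 := Submodule.finrank_le U
      rw [finrank_fintype_fun_eq_card] at h2
      have := h.dim
      omega
    exact Fintype.one_lt_card_iff.1 h1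
  obtain ⟨X, hX, hpos⟩ := h.exists_trace_pos
  obtain ⟨g, μ, ρ, hρ, hg, hμ, hJ⟩ := exists_adapted h.herm h.lor h.det (h.skew X hX) hpos hpq
  let P : Matrix ι ι ℂ := Matrix.of fun i j => g j i
  have hP : ∀ j, P *ᵥ ee j = g j := fun j => by
    rw [mulVec_single_one]
    rfl
  have hPJ : Pᴴ * H * P = J p q := by
    ext i j
    rw [← hJ i j, Matrix.mul_assoc]
    unfold hf
    rfl
  have hXP : X * P = P * diagonal μ := by
    ext i j
    have h3 := congrFun (hg j) i
    rw [mul_diagonal]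
    have h4 : (X * P) i j = (X *ᵥ g j) i := rfl
    rw [h4, h3, Pi.smul_apply, smul_eq_mul, mul_comm]
    rfl
  set Q : Matrix ι ι ℂ := J p q * (Pᴴ * H) with hQ
  have hQP : Q * P = 1 := by
    rw [hQ, Matrix.mul_assoc, hPJ, J_mul_J hpq]
  have hPQ : P * Q = 1 := mul_eq_one_comm.1 hQP
  clear_value Q
  have hPQv : ∀ v, P *ᵥ (Q *ᵥ v) = v := fun v => by rw [mulVec_mulVec, hPQ, one_mulVec]
  have hQPv : ∀ v, Q *ᵥ (P *ᵥ v) = v := fun v => by rw [mulVec_mulVec, hQP, one_mulVec]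
  have hhf : ∀ u v, hf (J p q) u v = hf H (P *ᵥ u) (P *ᵥ v) := by
    intro u v
    rw [← hPJ]
    unfold hf
    rw [star_mulVec, ← dotProduct_mulVec, mulVec_mulVec, mulVec_mulVec, Matrix.mul_assoc]
  have hgU : ∀ i, dg p q i ≠ 0 → g i ∈ U := by
    intro i hi
    refine h.eig_mem hX ?_ (hg i)
    rw [hμ]
    exact mul_ne_zero (by exact_mod_cast hi) hρ
  -- transport of the Lie algebra
  set 𝔥' := 𝔥.comap (conjL P Q) with h𝔥'
  have hmem : ∀ Z, Z ∈ 𝔥' ↔ P * Z * Q ∈ 𝔥 := fun Z => by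
    rw [h𝔥', Submodule.mem_comap, conjL_apply]
  have hmul : ∀ X Y : Matrix ι ι ℂ, P * X * Q * (P * Y * Q) = P * (X * Y) * Q := by
    intro X Y
    have h1 : P * X * Q * (P * Y * Q) = P * X * (Q * P) * Y * Q := by noncomm_ring
    rw [h1, hQP, Matrix.mul_one]
    noncomm_ring
  have hback : ∀ X : Matrix ι ι ℂ, P * (Q * X * P) * Q = X := by
    intro X
    have h1 : P * (Q * X * P) * Q = (P * Q) * X * (P * Q) := by noncomm_ring
    rw [h1, hPQ, Matrix.one_mul, Matrix.mul_one]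
  have hact : ∀ Z v, (P * Z * Q) *ᵥ (P *ᵥ v) = P *ᵥ (Z *ᵥ v) := by
    intro Z v
    rw [mulVec_mulVec, mulVec_mulVec, Matrix.mul_assoc (P * Z), hQP, Matrix.mul_one]
  set U' : Submodule ℂ (ι → ℂ) := U.comap P.mulVecLin with hU'
  have hmemU : ∀ v, v ∈ U' ↔ P *ᵥ v ∈ U := fun v => Iff.rfl
  have hbr : ∀ X ∈ 𝔥', ∀ Y ∈ 𝔥', X * Y - Y * X ∈ 𝔥' := by
    intro X hX Y hY
    rw [hmem] at hX hY ⊢
    have h1 := h.br _ hX _ hY
    rw [hmul, hmul] at h1
    have h2 : P * (X * Y - Y * X) * Q = P * (X * Y) * Q - P * (Y * X) * Q := by noncomm_ring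
    rw [h2]
    exact h1
  have hsk : ∀ X ∈ 𝔥', Xᴴ * J p q + J p q * X = 0 := by
    intro X hX
    rw [hmem] at hX
    have h1 := h.skew _ hX
    have h2 : Pᴴ * ((P * X * Q)ᴴ * H + H * (P * X * Q)) * P = 0 := by
      rw [h1, Matrix.mul_zero, Matrix.zero_mul]
    have h3 : Pᴴ * Qᴴ = 1 := by rw [← conjTranspose_mul, hQP, conjTranspose_one]
    have h4 : Pᴴ * ((P * X * Q)ᴴ * H + H * (P * X * Q)) * P =
        (Pᴴ * Qᴴ) * Xᴴ * (Pᴴ * H * P) + Pᴴ * H * P * X * (Q * P) := by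
      rw [conjTranspose_mul, conjTranspose_mul]
      noncomm_ring
    rw [h4, h3, hQP, Matrix.one_mul, Matrix.mul_one, hPJ] at h2
    exact h2
  have hdiag : diagonal μ ∈ 𝔥' := by
    rw [hmem, ← hXP, Matrix.mul_assoc, hPQ, Matrix.mul_one]
    exact hX
  have hpU : ee p ∈ U' := by
    rw [hmemU, hP]
    exact hgU p (by rw [dg_p]; exact one_ne_zero)
  have hqU : ee q ∈ U' := by
    rw [hmemU, hP]
    exact hgU q (by rw [dg_q hpq]; norm_num)
  have hdimU : finrank ℂ U' = 2 := by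
    have hinj : Function.Injective P.mulVecLin := by
      intro u v huv
      simp only [mulVecLin_apply] at huv
      rw [← hQPv u, huv, hQPv]
    have h3 : U'.map P.mulVecLin = U := by
      apply Submodule.map_comap_eq_of_surjective
      intro v
      exact ⟨Q *ᵥ v, hPQv v⟩
    rw [← h2, ← h3]
    exact (Submodule.equivMapOfInjective _ hinj U').finrank_eq
  have hst' : ∀ Z ∈ 𝔥', ∀ u ∈ U', Z *ᵥ u ∈ U' := by
    intro Z hZ u hu
    rw [hmemU] at hu ⊢
    rw [← hact]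
    exact h.st _ ((hmem Z).1 hZ) _ hu
  have hirr' : ∀ N : Submodule ℂ (ι → ℂ), N ≤ U' → (∀ X ∈ 𝔥', ∀ u ∈ N, X *ᵥ u ∈ N) →
      N = ⊥ ∨ N = U' := by
    intro N hNU hN
    rcases h.irr (N.map P.mulVecLin) (by
        rintro _ ⟨c, hc, rfl⟩
        exact hNU hc) (by
        rintro Z hZ _ ⟨c, hc, rfl⟩
        refine ⟨(Q * Z * P) *ᵥ c, hN _ ?_ c hc, ?_⟩
        · rw [hmem, hback]
          exact hZ
        · simp only [mulVecLin_apply]
          rw [← hact, hback]) with h2 | h2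
    · left
      rw [eq_bot_iff]
      intro c hc
      have h3 : P *ᵥ c ∈ N.map P.mulVecLin := ⟨c, hc, rfl⟩
      rw [h2, Submodule.mem_bot] at h3
      rw [Submodule.mem_bot, ← hQPv c, h3, mulVec_zero]
    · right
      refine le_antisymm hNU fun c hc => ?_
      have h3 : P *ᵥ c ∈ N.map P.mulVecLin := by
        rw [h2]
        exact hc
      obtain ⟨c', hc', h4⟩ := h3
      have h5 : c' = c := by
        rw [← hQPv c', ← hQPv c]
        exact congrArg (fun v => Q *ᵥ v) h4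
      rw [← h5]
      exact hc'
  obtain ⟨Y1, hY1, hY1n⟩ := exists_offdiag hpq hpU hqU hdimU hst' hirr'
  obtain ⟨Y2, hY2, hY2n⟩ := exists_offdiag hpq.symm hqU hpU hdimU hst' hirr'
  have hsm : ∀ (T : Matrix ι ι ℂ) (r : ℝ) (v : ι → ℂ), (r • T) *ᵥ v = (r : ℂ) • (T *ᵥ v) := by
    intro T r v
    rw [smul_mulVec]
    funext i
    simp
  have him : ∀ z : ℂ, star z + z = 0 → z ≠ 0 → z.im ≠ 0 ∧ z = z.im * Complex.I := by
    intro z hz hz0
    have h3 : z.re = 0 := by
      have h4 := congrArg Complex.re hz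
      simp only [Complex.star_def, Complex.add_re, Complex.conj_re, Complex.zero_re] at h4
      linarith
    have h4 : z = z.im * Complex.I := by
      apply Complex.ext
      · simp [h3]
      · simp
    refine ⟨fun h5 => hz0 ?_, h4⟩
    rw [h4, h5]
    simp
  have hz1 := (skw_iff hpq Y1).1 (hsk Y1 hY1) q q
  have hz2 := (skw_iff hpq Y2).1 (hsk Y2 hY2) p p
  rw [Equiv.swap_apply_right] at hz1
  rw [Equiv.swap_apply_left] at hz2
  have hsgq : sg p q q = 1 := by
    unfold sg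
    rw [if_pos (Or.inr rfl)]
  have hsgp : sg p q p = 1 := by
    unfold sg
    rw [if_pos (Or.inl rfl)]
  rw [hsgq, one_mul, one_mul] at hz1
  rw [hsgp, one_mul, one_mul] at hz2
  obtain ⟨i1, e1⟩ := him _ hz1 hY1n
  obtain ⟨i2, e2⟩ := him _ hz2 hY2n
  have hpr1 := pr_mem hbr hpq hsk hρ hμ hdiag hY1 2
  have hpr2 := pr_mem hbr hpq hsk hρ hμ hdiag hY2 (-2)
  have hdgv : ∀ i, i ≠ p → i ≠ q → dg p q i = 0 := by
    intro i h3 h4
    unfold dg
    rw [if_neg h3, if_neg h4]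
  have hv1 : ∀ v, pr p q 2 Y1 *ᵥ v = (Y1 p q * v q) • ee p := by
    intro v
    funext i
    rw [Pi.smul_apply, smul_eq_mul]
    unfold mulVec dotProduct LZ.pr
    simp only [of_apply]
    by_cases hi : i = p
    · subst hi
      rw [ee_same, mul_one, Finset.sum_eq_single q]
      · rw [dg_p, dg_q hpq, if_pos (by norm_num)]
      · intro j _ hj
        rw [if_neg, zero_mul]
        rw [dg_p]
        by_cases hj' : j = i
        · subst hj'
          rw [dg_p]
          norm_num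
        · rw [hdgv j hj' hj]
          norm_num
      · intro h
        exact absurd (Finset.mem_univ _) h
    · rw [ee_ne hi, mul_zero]
      refine Finset.sum_eq_zero fun j _ => ?_
      rw [if_neg, zero_mul]
      have h3 : dg p q i ≤ 0 := by
        unfold dg
        rw [if_neg hi]
        split_ifs <;> norm_num
      have h4 : -1 ≤ dg p q j := by
        unfold dg
        split_ifs <;> norm_num
      intro h5
      omega
  have hv2 : ∀ v, pr p q (-2) Y2 *ᵥ v = (Y2 q p * v p) • ee q := by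
    intro v
    funext i
    rw [Pi.smul_apply, smul_eq_mul]
    unfold mulVec dotProduct LZ.pr
    simp only [of_apply]
    by_cases hi : i = q
    · subst hi
      rw [ee_same, mul_one, Finset.sum_eq_single p]
      · rw [dg_p, dg_q hpq, if_pos (by norm_num)]
      · intro j _ hj
        rw [if_neg, zero_mul]
        rw [dg_q hpq]
        by_cases hj' : j = i
        · subst hj'
          rw [dg_q hpq]
          norm_num
        · rw [hdgv j hj hj']
          norm_num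
      · intro h
        exact absurd (Finset.mem_univ _) h
    · rw [ee_ne hi, mul_zero]
      refine Finset.sum_eq_zero fun j _ => ?_
      rw [if_neg, zero_mul]
      have h3 : 0 ≤ dg p q i := by
        unfold dg
        split_ifs <;> norm_num
      have h4 : dg p q j ≤ 1 := by
        unfold dg
        split_ifs <;> norm_num
      intro h5
      omega
  have hfp : ∀ v, hf H (g p) (P *ᵥ v) = v q := fun v => by
    rw [← hP, ← hhf, hf_J_p hpq]
  have hfq : ∀ v, hf H (g q) (P *ᵥ v) = v p := fun v => by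
    rw [← hP, ← hhf, hf_J_q hpq]
  have t1 : ((Y1 p q).im⁻¹ • pr p q 2 Y1) ∈ 𝔥' := 𝔥'.smul_mem _ hpr1
  have t2 : ((Y2 q p).im⁻¹ • pr p q (-2) Y2) ∈ 𝔥' := 𝔥'.smul_mem _ hpr2
  have a1 : ∀ v, ((Y1 p q).im⁻¹ • pr p q 2 Y1) *ᵥ v = (Complex.I * v q) • ee p := by
    intro v
    rw [hsm, hv1, smul_smul]
    congr 1
    have h3 : ((Y1 p q).im : ℂ) ≠ 0 := by exact_mod_cast i1
    conv_lhs => rw [e1]
    push_cast
    rw [e1] at *
    simp only [Complex.mul_im, Complex.ofReal_re, Complex.I_im, mul_one, Complex.ofReal_im,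
      Complex.I_re, mul_zero, add_zero] at *
    field_simp
  have a2 : ∀ v, ((Y2 q p).im⁻¹ • pr p q (-2) Y2) *ᵥ v = (Complex.I * v p) • ee q := by
    intro v
    rw [hsm, hv2, smul_smul]
    congr 1
    have h3 : ((Y2 q p).im : ℂ) ≠ 0 := by exact_mod_cast i2
    conv_lhs => rw [e2]
    push_cast
    rw [e2] at *
    simp only [Complex.mul_im, Complex.ofReal_re, Complex.I_im, mul_one, Complex.ofReal_im,
      Complex.I_re, mul_zero, add_zero] at *
    field_simp
  generalize ((Y1 p q).im⁻¹ • pr p q 2 Y1) = T1 at t1 a1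
  generalize ((Y2 q p).im⁻¹ • pr p q (-2) Y2) = T2 at t2 a2
  refine ⟨g p, g q, ?_, ?_, ?_, ?_, ?_, ⟨P * T1 * Q, (hmem _).1 t1, fun v => ?_⟩,
    ⟨P * T2 * Q, (hmem _).1 t2, fun v => ?_⟩,
    ⟨P * -(T1 * T2 - T2 * T1) * Q, (hmem _).1 (𝔥'.neg_mem (hbr _ t1 _ t2)), fun v => ?_⟩⟩
  · rw [← hP]
    exact hpU
  · rw [← hP]
    exact hqU
  · rw [hJ, J_apply hpq, Equiv.swap_apply_left, if_neg hpq]
  · rw [hJ, J_apply hpq, Equiv.swap_apply_right, if_neg hpq.symm]
  · rw [hJ, J_apply hpq, Equiv.swap_apply_left, if_pos rfl, hsgp]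
  · rw [← hPQv v, hact, a1, hfp, mulVec_smul, hP]
  · rw [← hPQv v, hact, a2, hfq, mulVec_smul, hP]
  · rw [← hPQv v, hact, hfp, hfq, neg_mulVec, sub_mulVec, ← mulVec_mulVec, ← mulVec_mulVec, a1, a2,
      a1, a2]
    simp only [Pi.smul_apply, smul_eq_mul, ee_same, mul_one]
    rw [mulVec_neg, mulVec_sub, mulVec_smul, mulVec_smul, hP, hP]
    funext i
    simp only [Pi.neg_apply, Pi.sub_apply, Pi.smul_apply, smul_eq_mul]
    linear_combination (-((Q *ᵥ v) p) * g p i + ((Q *ᵥ v) q) * g q i) * Complex.I_sq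

end Pool.Agent.W5h86.LX
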